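import Pool.Agent.H45.EGH.S2

/-!
# EGH, module IMG
-/

set_option autoImplicit false

namespace Pool.EGH

open MvPolynomial

namespace IMG

variable {K : Type} [Field K]

/-- Rank and nullity for the restriction to a subspace. -/
theorem rn {V W : Type} [AddCommGroup V] [Module K V] [AddCommGroup W] [Module K W]
    (p : V →ₗ[K] W) (U : Submodule K V) [Module.Finite K ↥U] :
    Module.finrank K ↥(U.map p) + Module.finrank K ↥(U ⊓ LinearMap.ker p) =
      Module.finrank K ↥U := by
  have h := LinearMap.finrank_range_add_finrank_ker (p.domRestrict U)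
  have h1 : LinearMap.range (p.domRestrict U) = U.map p := by
    rw [LinearMap.range_domRestrict]
  have h2 : LinearMap.ker (p.domRestrict U) = (U ⊓ LinearMap.ker p).comap U.subtype := by
    ext x
    simp [LinearMap.domRestrict_apply]
  have h3 : Module.finrank K ↥((U ⊓ LinearMap.ker p).comap U.subtype) =
      Module.finrank K ↥(U ⊓ LinearMap.ker p) :=
    (Submodule.comapSubtypeEquivOfLe inf_le_left).finrank_eq
  rw [h1, h2, h3] at h
  exact h

theorem ker_mk {N : ℕ} (Q : Ideal (PR K N)) :
    LinearMap.ker (Ideal.Quotient.mkₐ K Q).toLinearMap = Q.restrictScalars K := by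
  ext x
  simp [LinearMap.mem_ker, Ideal.Quotient.eq_zero_iff_mem]

end IMG

open IMG in
theorem t_img (hGPD : GPDStmt) : IMGStmt := by
  intro K _ N n Q I hQ hI hle i
  have hfin : Module.Finite K ↥(fm K N i) :=
    Module.Finite.iff_fg.mpr (MvPolynomial.homogeneousSubmodule_fg _ _ i)
  have hfI : Module.Finite K ↥(I.restrictScalars K ⊓ fm K N i) :=
    Submodule.finiteDimensional_inf_right _ _
  have hfQ : Module.Finite K ↥(Q.restrictScalars K ⊓ fm K N i) :=
    Submodule.finiteDimensional_inf_right _ _
  refine ⟨Submodule.map_mono inf_le_right, ?_, ?_⟩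
  · have h1 := rn (Ideal.Quotient.mkₐ K Q).toLinearMap (I.restrictScalars K ⊓ fm K N i)
    have h2 := rn (Ideal.Quotient.mkₐ K Q).toLinearMap (fm K N i)
    rw [ker_mk] at h1 h2
    have e1 : I.restrictScalars K ⊓ fm K N i ⊓ Q.restrictScalars K =
        fm K N i ⊓ Q.restrictScalars K := by
      apply le_antisymm
      · exact le_inf (inf_le_left.trans inf_le_right) inf_le_right
      · refine le_inf (le_inf (inf_le_right.trans ?_) inf_le_left) inf_le_right
        exact fun x hx => hle hx
    rw [e1] at h1
    have h3 := (hGPD K N Q).2 n hQ i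
    have h4 : Module.finrank K ↥(I.restrictScalars K ⊓ fm K N i) ≤
        Module.finrank K ↥(fm K N i) := Submodule.finrank_mono inf_le_right
    unfold im hf
    unfold gp at h3
    omega
  · rw [Submodule.mul_le]
    rintro a ⟨f, hf1, rfl⟩ b ⟨g, ⟨hg1, hg2⟩, rfl⟩
    refine ⟨f * g, ⟨?_, ?_⟩, ?_⟩
    · exact I.mul_mem_left f hg1
    · have := (((mem_homogeneousSubmodule 1 f).mp hf1).mul ((mem_homogeneousSubmodule i g).mp hg2))
      rw [add_comm] at this
      exact this
    · simp

end Pool.EGH
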