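import Pool.Agent.H45.EGH.S3
import Pool.Agent.H34.EGH.IMG

/-!
# EGH, module JJ4
-/

set_option autoImplicit false

namespace Pool.EGH

open MvPolynomial

namespace JJ4

variable {K : Type} [Field K]

/-- The map `(l, m) ↦ l g + m g'` on pairs of elements of `P`. -/
noncomputable def syz {A : Type} [CommRing A] [Algebra K A] (P : Submodule K A) (g g' : A) :
    (↥P × ↥P) →ₗ[K] A :=
  ((LinearMap.mulRight K g).comp P.subtype).coprod ((LinearMap.mulRight K g').comp P.subtype)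

theorem syz_apply {A : Type} [CommRing A] [Algebra K A] (P : Submodule K A) (g g' : A)
    (p : ↥P × ↥P) : syz P g g' p = (p.1 : A) * g + (p.2 : A) * g' := by
  simp [syz]

/-- The space of syzygies. -/
noncomputable def SY {A : Type} [CommRing A] [Algebra K A] (P : Submodule K A) (g g' : A) :
    Submodule K (A × A) :=
  (LinearMap.ker (syz P g g')).map (LinearMap.prodMap P.subtype P.subtype)

theorem mem_SY {A : Type} [CommRing A] [Algebra K A] (P : Submodule K A) (g g' : A)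
    {p : A × A} (hp : p ∈ SY P g g') : p.1 ∈ P ∧ p.2 ∈ P ∧ p.1 * g + p.2 * g' = 0 := by
  obtain ⟨q, hq, rfl⟩ := hp
  have hq' : syz P g g' q = 0 := hq
  rw [syz_apply] at hq'
  exact ⟨q.1.2, q.2.2, hq'⟩

theorem finrank_SY {A : Type} [CommRing A] [Algebra K A] (P W : Submodule K A) (g g' : A)
    [Module.Finite K ↥P] [Module.Finite K ↥W] (h : ∀ l ∈ P, ∀ m ∈ P, l * g + m * g' ∈ W) :
    Module.finrank K ↥P + Module.finrank K ↥P ≤
      Module.finrank K ↥(SY P g g') + Module.finrank K ↥W := by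
  have h1 := LinearMap.finrank_range_add_finrank_ker (syz P g g')
  rw [Module.finrank_prod] at h1
  have h2 : Module.finrank K ↥(LinearMap.range (syz P g g')) ≤ Module.finrank K ↥W := by
    apply Submodule.finrank_mono
    rintro _ ⟨p, rfl⟩
    rw [syz_apply]
    exact h _ p.1.2 _ p.2.2
  have h3 : Module.finrank K ↥(SY P g g') = Module.finrank K ↥(LinearMap.ker (syz P g g')) := by
    refine (Submodule.equivMapOfInjective _ ?_ _).finrank_eq.symm
    intro a b hab
    have h5 : (a.1 : A) = b.1 := congrArg Prod.fst hab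
    have h6 : (a.2 : A) = b.2 := congrArg Prod.snd hab
    exact Prod.ext (Subtype.ext h5) (Subtype.ext h6)
  omega

/-- An element which kills two independent elements of a four dimensional space has rank at
most two. -/
theorem rank_le {N : ℕ} {Q : Ideal (PR K N)} (U : Submodule K (PR K N ⧸ Q))
    (hU : Module.finrank K ↥U = 4) (y g g' : PR K N ⧸ Q) (hg : g ∈ U) (hg' : g' ∈ U)
    (hi : ∀ a b : K, a • g + b • g' = 0 → a = 0 ∧ b = 0) (h1 : y * g = 0) (h2 : y * g' = 0) :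
    Module.finrank K ↥(ml y U) ≤ 2 := by
  have : Module.Finite K ↥U := Module.finite_of_finrank_pos (by omega)
  have h3 := IMG.rn (LinearMap.mulLeft K y) U
  have h4 : 2 ≤ Module.finrank K ↥(U ⊓ LinearMap.ker (LinearMap.mulLeft K y)) := by
    have hli : LinearIndependent K ![(⟨g, hg, h1⟩ :
        ↥(U ⊓ LinearMap.ker (LinearMap.mulLeft K y))), ⟨g', hg', h2⟩] := by
      rw [LinearIndependent.pair_iff]
      intro a b hab
      exact hi a b (congrArg Subtype.val hab)
    have := hli.fintype_card_le_finrank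
    simpa using this
  unfold ml
  omega

end JJ4

open JJ4 in
theorem t_jj4 (hGPM : GPMStmt) (hGPD : GPDStmt) (hT3P : T3PStmt) (hSTR : STRStmt)
    (hRK4 : RK4Stmt) (hPR4 : PR4Stmt) (hZE3 : ZE3Stmt) (hE3L : E3LStmt) : JJ4Stmt := by
  intro K _ _ Q U hC4
  obtain ⟨hd9, hrk⟩ := hRK4 K Q U hC4
  obtain ⟨gf, gm, g0, gmk⟩ := hGPM K 6 Q
  obtain ⟨u, hu, hu0, w, hw, hwu, hwU⟩ := hT3P K 6 Q U U hC4.ci hC4.le le_rfl
    (by rw [hC4.dim]; norm_num)
  have hD : D4 Q U u w (ann Q 1 (ml w U)) := ⟨hC4, hu, hu0, hw, hwu, hwU, rfl⟩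
  obtain ⟨s1, s2, s3, s4, s5, s6, s7, s8⟩ := hSTR K Q U u w _ hD
  obtain ⟨g, hg, g', hg', hind, hCC⟩ := hPR4 K Q U u w _ hD
  obtain ⟨ζ, hζ, z1, z2, z3, z4⟩ := hZE3 K Q _ hC4.ci s2 s3 s4
  generalize hCdef : ann Q 1 (ml w U) = C at *
  have f1 : Module.finrank K ↥(gp Q 1) = 6 := by
    have := (hGPD K 6 Q).2 6 hC4.ci 1
    rw [this]; decide
  have i1 := gf 1
  have e2 : gp Q 1 * gp Q 1 = gp Q 2 := gm 1 1
  have e3 : gp Q 1 * gp Q 2 = gp Q 3 := gm 1 2
  have i3 : Module.Finite K ↥(gp Q 1 * U) := by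
    have := gf 3
    have hle : gp Q 1 * U ≤ gp Q 3 := by
      rw [← e3]
      exact mul_le_mul_right hC4.le _
    exact Submodule.finiteDimensional_of_le hle
  have hx : ∀ v ∈ U, ∃ x ∈ gp Q 1, w * v = x * ζ := by
    intro v hv
    apply z4
    rw [s5]
    exact ⟨v, hv, rfl⟩
  obtain ⟨x, hx1, hx2⟩ := hx g hg
  obtain ⟨x', hx1', hx2'⟩ := hx g' hg'
  have hi2 : ∀ a b : K, a • g + b • g' = 0 → a = 0 ∧ b = 0 := by
    intro a b hab
    have := hind a b 0 (by rw [zero_smul, add_zero]; exact hab)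
    exact ⟨this.1, this.2.1⟩
  refine hE3L K Q C x x' (SY (gp Q 1) g g') hC4.ci s2 s3 s4 hx1 hx1' ?_ ?_ ?_ ?_ ?_ ?_
  · intro a b hab
    have h1 := z1 _ hab
    have h2 : w * (a • g + b • g') = 0 := by
      rw [mul_add, mul_smul_comm, mul_smul_comm, hx2, hx2', ← smul_mul_assoc, ← smul_mul_assoc,
        ← add_mul]
      exact h1
    obtain ⟨d, hd⟩ := s6 _ (add_mem (Submodule.smul_mem _ a hg) (Submodule.smul_mem _ b hg')) h2
    have := hind a b (-d) (by rw [hd, neg_smul, add_neg_cancel])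
    exact ⟨this.1, this.2.1⟩
  · intro p hp
    have := mem_SY _ _ _ hp
    exact ⟨this.1, this.2.1⟩
  · have := finrank_SY (gp Q 1) (gp Q 1 * U) g g' (fun l hl m hm =>
      add_mem (Submodule.mul_mem_mul hl hg) (Submodule.mul_mem_mul hm hg'))
    rw [f1] at this
    have h9 : Module.finrank K ↥(gp Q 1 * U) = 9 := hd9
    omega
  · intro p hp h1 h2
    have h3 := mem_SY _ _ _ hp
    have := hCC _ h1 _ h2 h3.2.2
    exact Prod.ext this.1 this.2
  · intro p hp
    obtain ⟨p1, p2, p3⟩ := mem_SY _ _ _ hp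
    apply z3
    · rw [← e2]
      exact add_mem (Submodule.mul_mem_mul p1 hx1) (Submodule.mul_mem_mul p2 hx1')
    · have : (p.1 * x + p.2 * x') * ζ = w * (p.1 * g + p.2 * g') := by
        rw [add_mul, mul_assoc, mul_assoc, ← hx2, ← hx2']
        ring
      rw [this, p3, mul_zero]
  · intro p hp p' hp'
    obtain ⟨p1, p2, p3⟩ := mem_SY _ _ _ hp
    obtain ⟨q1, q2, q3⟩ := mem_SY _ _ _ hp'
    have hy : p.1 * p'.2 - p'.1 * p.2 ∈ gp Q 2 := by
      rw [← e2]
      exact sub_mem (Submodule.mul_mem_mul p1 q2) (Submodule.mul_mem_mul q1 p2)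
    apply s7 _ hy
    have k1 : (p.1 * p'.2 - p'.1 * p.2) * g = 0 := by
      linear_combination p'.2 * p3 - p.2 * q3
    have k2 : (p.1 * p'.2 - p'.1 * p.2) * g' = 0 := by
      linear_combination p.1 * q3 - p'.1 * p3
    rcases hrk _ hy with h | ⟨h, -⟩
    · exact h
    · have := rank_le U hC4.dim _ g g' hg hg' hi2 k1 k2
      omega

end Pool.EGH
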