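import Pool.Agent.H45.EGH.S2

/-!
# EGH, module R94
-/

set_option autoImplicit false

namespace Pool.EGH

open MvPolynomial

namespace R94

/-- One of the two symmetric inequalities. -/
theorem fin1 (a2 a3 A3 A4 h4 : ℕ) (h1 : A3 + a2 = 9) (h2 : A4 + a3 = h4)
    (h3 : a3 ≤ b2 a2) (h4' : 10 ≤ A3 + (5 - A4).choose 2) (h5 : a2 ≤ 5) : h4 ≤ 3 := by
  have hA : A4 ≤ 3 := by
    by_contra hc
    have : 5 - A4 ≤ 1 := by omega
    have : (5 - A4).choose 2 = 0 := Nat.choose_eq_zero_of_lt (by omega)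
    omega
  have hA3 : A3 = 9 - a2 := by omega
  subst hA3
  subst h2
  interval_cases a2 <;> interval_cases A4 <;> simp [b2] at h3 h4' ⊢ <;> omega

theorem fin2 (A3 A4 : ℕ) (h4' : 10 ≤ A3 + (5 - A4).choose 2) (h : A3 ≤ 3) : A4 = 0 := by
  by_contra hc
  have : (5 - A4).choose 2 ≤ (4 : ℕ).choose 2 := Nat.choose_le_choose 2 (by omega)
  have h6 : (4 : ℕ).choose 2 = 6 := by decide
  omega

end R94

open R94 in
theorem t_r94 (hCLB : CLBStmt) (hHED : HEDStmt) (hE6A : E6AStmt) : R94Stmt := by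
  intro K _ _ N Q I l m hQ hI hle hl hm hlQ hmQ hlm h9
  have hml : m * l ∈ I := by rw [mul_comm]; exact hlm
  obtain ⟨a1, a2, a3, a4, a5, Q1, q1, q1'⟩ := hCLB K N 5 Q I l m hQ hI hle hl hm hlQ hlm
  obtain ⟨b1, b2', b3, b4, b5, Q2, q2, q2'⟩ := hCLB K N 5 Q I m l hQ hI hle hm hl hmQ hml
  have c1 := hHED K N 3 Q1 (I ⊔ Ideal.span {l}) q1 a5 q1'
  have c2 := hHED K N 3 Q2 (I ⊔ Ideal.span {m}) q2 b5 q2'
  have c3 : (3 + 2 : ℕ).choose 2 = 10 := by decide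
  rw [c3] at c1 c2
  have x1 : hf (I ⊔ Ideal.span {l}) 3 + hf (clI I l) 2 = 9 := (a1 2).trans h9
  have x2 : hf (I ⊔ Ideal.span {l}) 4 + hf (clI I l) 3 = hf I 4 := a1 3
  have y1 : hf (I ⊔ Ideal.span {m}) 3 + hf (clI I m) 2 = 9 := (b1 2).trans h9
  have y2 : hf (I ⊔ Ideal.span {m}) 4 + hf (clI I m) 3 = hf I 4 := b1 3
  have z1 := a2 3
  have z2 := b2' 3
  have c1' : 10 ≤ hf (I ⊔ Ideal.span {l}) 3 + (5 - hf (I ⊔ Ideal.span {l}) 4).choose 2 := c1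
  have c2' : 10 ≤ hf (I ⊔ Ideal.span {m}) 3 + (5 - hf (I ⊔ Ideal.span {m}) 4).choose 2 := c2
  by_cases hA : hf (clI I l) 2 ≤ 5
  · exact fin1 _ _ _ _ _ x1 x2 (hE6A K N Q (clI I l) hQ a3 a4 (by omega)) c1' hA
  by_cases hB : hf (clI I m) 2 ≤ 5
  · exact fin1 _ _ _ _ _ y1 y2 (hE6A K N Q (clI I m) hQ b3 b4 (by omega)) c2' hB
  have u1 : hf (I ⊔ Ideal.span {l}) 4 = 0 := fin2 _ _ c1' (by omega)
  omega

end Pool.EGH
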